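import Pool.Agent.K3h5.FF.Stm

/-! FF brick SYSS for helper5: the limit graph is a system -/

set_option autoImplicit false

open MeasureTheory Filter Topology ProbabilityTheory Set

namespace Pool.Agent.K3h68.FF

open Pool.Agent.K3h5.FF

/-- the inverse of bumping -/
noncomputable def unbump (x : ℝ) (t : State) : State := fun z =>
  if z = x then some (Sum.inl 0) else
    (t z).map (Sum.elim (fun k => Sum.inl (if z < x then k + 1 else k)) (fun j => Sum.inr (j - 1)))

theorem bump_inr0 {x z : ℝ} {v : State} : bumpS x v z = some (Sum.inr 0) ↔ z = x := by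
  unfold bumpS
  by_cases h : z = x
  · simp [h]
  · rcases hv : v z with _ | (k | j) <;> simp [h, hv]

theorem bump_inrS {x z : ℝ} {v : State} (hx : v x = some (Sum.inl 0)) (j : ℕ) :
    bumpS x v z = some (Sum.inr (j + 1)) ↔ v z = some (Sum.inr j) := by
  unfold bumpS
  by_cases h : z = x
  · subst h
    simp [hx]
  · rcases hv : v z with _ | (k | i) <;> simp [h, hv]

theorem bump_inl {x z : ℝ} {v : State} (k : ℤ) :
    bumpS x v z = some (Sum.inl k) ↔
      ((z < x ∧ v z = some (Sum.inl (k + 1))) ∨ (x < z ∧ v z = some (Sum.inl k))) := by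
  unfold bumpS
  rcases lt_trichotomy z x with h | h | h
  · rcases hv : v z with _ | (i | i)
    · simp [h.ne, hv]
    · simp only [h.ne, if_false, Option.map_some, Sum.elim_inl, h, if_true, Option.some.injEq,
        Sum.inl.injEq, true_and, not_lt_of_gt h, false_and, or_false]
      omega
    · simp [h.ne, hv]
  · subst h
    simp
  · rcases hv : v z with _ | (i | i)
    · simp [h.ne', hv]
    · simp [h.ne', not_lt_of_gt h, h]
    · simp [h.ne', hv]

theorem unbump_bump {x : ℝ} {v : State} (hx : v x = some (Sum.inl 0)) :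
    unbump x (bumpS x v) = v := by
  funext z
  unfold unbump bumpS
  by_cases h : z = x
  · subst h
    simp [hx]
  · rcases hv : v z with _ | (i | i)
    · simp [h, hv]
    · by_cases h2 : z < x <;> simp [h, h2]
    · simp [h]

theorem bump_unbump {x : ℝ} {t : State} (hx : ∀ z, t z = some (Sum.inr 0) ↔ z = x) :
    bumpS x (unbump x t) = t := by
  funext z
  unfold unbump bumpS
  by_cases h : z = x
  · subst h
    simp [(hx z).2 rfl]
  · rcases hv : t z with _ | (i | i)
    · simp [h, hv]
    · by_cases h2 : z < x <;> simp [h, h2, hv]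
    · have : i ≠ 0 := by
        rintro rfl
        exact h ((hx z).1 hv)
      have h3 : i - 1 + 1 = i := by omega
      simp [h, hv, h3]

theorem unbump_inr {x z : ℝ} {t : State} (hx : ∀ z, t z = some (Sum.inr 0) ↔ z = x) (j : ℕ) :
    unbump x t z = some (Sum.inr j) ↔ t z = some (Sum.inr (j + 1)) := by
  unfold unbump
  by_cases h : z = x
  · subst h
    simp [(hx z).2 rfl]
  · rcases hv : t z with _ | (i | i)
    · simp [h, hv]
    · simp [h]
    · have : i ≠ 0 := by
        rintro rfl
        exact h ((hx z).1 hv)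
      simp only [h, if_false, Option.map_some, Sum.elim_inr, Option.some.injEq, Sum.inr.injEq]
      omega

theorem unbump_inl {x z : ℝ} {t : State} (k : ℤ) :
    unbump x t z = some (Sum.inl k) ↔
      ((z < x ∧ t z = some (Sum.inl (k - 1))) ∨ (x < z ∧ t z = some (Sum.inl k)) ∨
        (k = 0 ∧ z = x)) := by
  unfold unbump
  rcases lt_trichotomy z x with h | h | h
  · rcases hv : t z with _ | (i | i)
    · simp [h.ne, hv]
    · simp only [h.ne, if_false, Option.map_some, Sum.elim_inl, h, if_true, Option.some.injEq,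
        Sum.inl.injEq, true_and, not_lt_of_gt h, false_and, and_false, or_false]
      omega
    · simp [h.ne, hv]
  · subst h
    simp [eq_comm]
  · rcases hv : t z with _ | (i | i)
    · simp [h.ne', hv]
    · simp [h.ne', not_lt_of_gt h, h]
    · simp [h.ne', hv]

open Classical in
/-- the parent -/
noncomputable def parS (t : State) : Option State :=
  if h : ∃ x, ∀ z, t z = some (Sum.inr 0) ↔ z = x then some (unbump h.choose t) else none

open Classical in
/-- the mark -/
noncomputable def markS (t : State) : ℝ :=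
  if h : ∃ x, ∀ z, t z = some (Sum.inr 0) ↔ z = x then h.choose else 0

theorem mark_of {t : State} {x : ℝ} (hx : ∀ z, t z = some (Sum.inr 0) ↔ z = x) :
    markS t = x ∧ parS t = some (unbump x t) := by
  have h : ∃ x, ∀ z, t z = some (Sum.inr 0) ↔ z = x := ⟨x, hx⟩
  have h1 : h.choose = x := by
    have := (h.choose_spec h.choose).2 rfl
    exact (hx _).1 this
  constructor
  · rw [markS, dif_pos h, h1]
  · rw [parS, dif_pos h, h1]

theorem par_iff {t s : State} : parS t = some s ↔ ∃ x, s x = some (Sum.inl 0) ∧ t = bumpS x s := by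
  constructor
  · intro h
    by_cases h1 : ∃ x, ∀ z, t z = some (Sum.inr 0) ↔ z = x
    · obtain ⟨x, hx⟩ := h1
      rw [(mark_of hx).2] at h
      have hs : unbump x t = s := Option.some.inj h
      refine ⟨x, ?_, ?_⟩
      · rw [← hs]
        simp [unbump]
      · rw [← hs, bump_unbump hx]
    · rw [parS, dif_neg h1] at h
      exact absurd h (by simp)
  · rintro ⟨x, hx, rfl⟩
    rw [(mark_of fun z => bump_inr0).2, unbump_bump hx]

theorem mark_bump {x : ℝ} {s : State} : markS (bumpS x s) = x := (mark_of fun _ => bump_inr0).1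

theorem good_mark {v : State} (hv : GoodS v) : ∀ z, v z = some (Sum.inr 0) ↔ z = markS v := by
  obtain ⟨x, hx, hu⟩ := hv 0
  have h : ∀ z, v z = some (Sum.inr 0) ↔ z = x := fun z => ⟨fun hz => hu z hz, fun hz => hz ▸ hx⟩
  rw [(mark_of h).1]
  exact h

/-- SYSS -/
theorem t_SYSS : S_SYSS := by
  refine ⟨{ G := limitGraph, par := parS, mark := markS, Lab := LabS, Good := fun _ v => GoodS v,
            adj := ?_, inj := ?_, uniq := ?_, front := ?_, up := ?_, down := ?_, child := ?_ },
    rfl, fun _ _ _ => Iff.rfl, fun _ _ => Iff.rfl⟩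
  · intro v w
    rw [par_iff, par_iff, limitGraph, SimpleGraph.fromRel_adj]
    constructor
    · rintro ⟨_, h | h⟩
      · exact Or.inr h
      · exact Or.inl h
    · intro h
      refine ⟨?_, h.symm⟩
      rintro rfl
      rcases h with ⟨x, hx, hv⟩ | ⟨x, hx, hv⟩ <;>
      · have h1 : v x = some (Sum.inr 0) := by
          rw [hv]
          exact bump_inr0.2 rfl
        rw [hx] at h1
        simp at h1
  · intro v w w' hw hw' hm
    obtain ⟨x, hx, rfl⟩ := par_iff.1 hw
    obtain ⟨x', hx', rfl⟩ := par_iff.1 hw'
    rw [mark_bump, mark_bump] at hm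
    rw [hm]
  · intro s v _ l _ l' _ z h h'
    exact Option.some.inj (h.symm.trans h')
  · intro s v hv z
    exact good_mark hv z
  · intro s v hv
    have hm := good_mark hv
    refine ⟨unbump (markS v) v, (mark_of hm).2, ?_, ?_, ?_⟩
    · intro j
      obtain ⟨x, hx, hu⟩ := hv (j + 1)
      exact ⟨x, (unbump_inr hm j).2 hx, fun y hy => hu y ((unbump_inr hm j).1 hy)⟩
    · intro j _ z
      exact unbump_inr hm j
    · intro k _ z
      exact unbump_inl k
  · intro s v w hv hw
    obtain ⟨x, hx, rfl⟩ := par_iff.1 hw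
    rw [mark_bump]
    refine ⟨?_, ?_, ?_, ?_⟩
    · intro j
      rcases j with _ | j
      · exact ⟨x, bump_inr0.2 rfl, fun y hy => bump_inr0.1 hy⟩
      · obtain ⟨y, hy, hu⟩ := hv j
        exact ⟨y, (bump_inrS hx j).2 hy, fun z hz => hu z ((bump_inrS hx j).1 hz)⟩
    · intro _ z
      exact bump_inr0
    · intro j _ z
      exact bump_inrS hx j
    · intro k _ z
      exact bump_inl k
  · intro s v x _
    constructor
    · intro h
      exact ⟨bumpS x v, par_iff.2 ⟨x, h, rfl⟩, mark_bump⟩
    · rintro ⟨w, hw, rfl⟩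
      obtain ⟨x, hx, rfl⟩ := par_iff.1 hw
      rw [mark_bump]
      exact hx

end Pool.Agent.K3h68.FF
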